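import Pool.Agent.Helper52_ABA.LStmts

/-! # ABL, module REV: inverse of a diagram -/

set_option autoImplicit false

namespace Pool.Agent.ABA.B.H19

open TG

theorem tri_inv {V E : Type} (S : TG V E) {e e' e'' : E} (h : S.Tri e e' e'') :
    S.Tri (S.inv e) (S.inv e'') (S.inv e') := by
  have h1 := S.tri_rot (S.tri_rot h)
  rw [S.inv_inv] at h1
  exact S.tri_swap h1

/-- module REV -/
theorem rev (hCol : ColStmt) : RevStmt := by
  intro V E S x w n h
  induction h with
  | nil x => exact D.nil x
  | @br e b a m n h1 h2 ih1 ih2 =>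
    have h3 : S.D (S.src e) (e :: (S.rv b ++ S.inv e :: [])) (m + 0) := D.br ih1 (D.nil _)
    have h4 := D.append ih2 h3
    have h5 : S.rv (e :: (b ++ S.inv e :: a)) = S.rv a ++ e :: (S.rv b ++ S.inv e :: []) := by
      simp
    rw [h5, add_comm m n]
    exact h4
  | @tri e e' e'' a n ht h ih =>
    have h1 : S.rv (e' :: e'' :: a) = S.rv a ++ S.inv e'' :: S.inv e' :: [] := by simp
    rw [h1] at ih
    have h2 : S.rv (e :: a) = S.rv a ++ S.inv e :: [] := by simp
    rw [h2]
    exact hCol V E S (S.src e) (S.rv a) [] (S.inv e) (S.inv e'') (S.inv e') n ih (tri_inv S ht)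

end Pool.Agent.ABA.B.H19
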